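import Pool.Agent.Helper37.KF.Stmts2
import Pool.Agent.Helper92.NF.Cert

/-!
# Komlos: one level
-/

namespace Pool.Agent.Helper92.KF

open Finset
open scoped Classical
open Pool.Agent.Helper3.NFR (ph ps c0)
open Pool.Agent.Helper90.KOM (fn Happy rr ST_DOM)
open Pool.Agent.Helper37.KF2

theorem tl_nonneg (r l : ℝ) (hr : 0 ≤ r) : 0 ≤ tl r l := by
  unfold tl
  apply Real.rpow_nonneg
  exact le_min zero_le_one (div_nonneg hr (sq_nonneg _))

theorem tl_mono {r r' l l' : ℝ} (hr : 0 ≤ r) (hrr : r ≤ r') (hl : 0 < l) (hll : l ≤ l') :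
    tl r l' ≤ tl r' l := by
  unfold tl
  apply Real.rpow_le_rpow
  · exact le_min zero_le_one (div_nonneg hr (sq_nonneg _))
  · apply min_le_min_left
    have h1 : l ^ 2 ≤ l' ^ 2 := pow_le_pow_left₀ hl.le hll 2
    have h2 : 0 < l ^ 2 := by positivity
    calc r / l' ^ 2 ≤ r / l ^ 2 := div_le_div_of_nonneg_left hr h2 h1
      _ ≤ r' / l ^ 2 := by gcongr
  · norm_num

theorem pow_le_tl (r l : ℝ) (hr : 0 ≤ r) : (min 1 (r / l ^ 2)) ^ (1 / 5 : ℝ) ≤ tl r l := by
  unfold tl
  have h0 : 0 ≤ min 1 (r / l ^ 2) := le_min zero_le_one (div_nonneg hr (sq_nonneg _))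
  rcases eq_or_lt_of_le h0 with h | h
  · rw [← h, Real.zero_rpow (by norm_num), Real.zero_rpow (by norm_num)]
  · exact Real.rpow_le_rpow_of_exponent_ge h (min_le_left _ _) (by norm_num)

theorem st_step (hdom : ST_DOM) (hl1 : ST_L1D) (hsg : ST_SIGNF) (hbits : ST_BITS) : ST_STEP := by
  have hc0 : (0 : ℝ) < c0 := by unfold Pool.Agent.Helper3.NFR.c0; norm_num
  have hc1 : c0 ≤ 1 := by unfold Pool.Agent.Helper3.NFR.c0; norm_num
  obtain ⟨C2, hC2, hl1⟩ := hl1
  set β : ℝ := c0 / 256 with hβ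
  have hβ0 : 0 < β := by positivity
  have hβ1 : β ≤ 1 := by rw [hβ]; linarith
  obtain ⟨η, C1, hη, hη1, hC1, hsg⟩ := hsg β hβ0 hβ1
  set b : ℝ := η / (256 * C1 ^ 2) with hb
  have hC1p : 0 < C1 := by linarith
  have hC1sq : 1 ≤ C1 ^ 2 := by nlinarith
  have hb0 : 0 < b := by positivity
  have hbη : b ≤ η := by
    rw [hb, div_le_iff₀ (by positivity)]
    nlinarith
  have hb1 : b ≤ 1 := hbη.trans hη1
  set κ : ℝ := Real.sqrt (2 / η) with hκ
  have hκsq : κ ^ 2 = 2 / η := Real.sq_sqrt (by positivity)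
  have hκ1 : 1 ≤ κ := by
    rw [hκ, Real.one_le_sqrt, le_div_iff₀ hη]
    linarith
  set ω : ℝ := Real.sqrt (b / η) with hω
  have hωsq : ω ^ 2 = b / η := Real.sq_sqrt (by positivity)
  have hω0 : 0 ≤ ω := Real.sqrt_nonneg _
  have hω1 : ω ≤ 1 := by
    rw [hω, Real.sqrt_le_one]
    rw [div_le_one hη]; exact hbη
  have hωC : C1 * ω = 1 / 16 := by
    have h1 : (C1 * ω) ^ 2 = (1 / 16) ^ 2 := by
      rw [mul_pow, hωsq, hb]
      field_simp
      norm_num
    have h2 : 0 ≤ C1 * ω := by positivity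
    exact (pow_left_inj₀ h2 (by norm_num) two_ne_zero).1 h1
  set α : ℝ := b * c0 / 2 with hα
  have hα0 : 0 < α := by positivity
  set K1 : ℝ := C2 * (α + 2 + b) / α with hK1
  have hK10 : 0 < K1 := by positivity
  refine ⟨b, 4 * β * K1 + 2 * C1 * κ, hb0, hb1, by positivity, ?_⟩
  intro V R _ _ a lam s T E hTE hlam hs0 hs1 hhap z hz
  obtain ⟨hD1, hD2⟩ := hdom V R a b c0 lam s T E hb0 hc0.le hlam hhap
  have hL := hl1 V R a α 2 b lam s T E hα0.le (by norm_num) hb0.le hlam
    (fun v => ⟨hs0 v, hs1 v⟩) (by rw [hα]; exact hD1)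
  -- masses
  set r : R → ℝ := fun S => ∑ v ∈ T ∪ E, a v S ^ 2 with hr
  have hr0 : ∀ S, 0 ≤ r S := fun S => Finset.sum_nonneg fun v _ => sq_nonneg _
  have hrET : ∀ S, ∑ v ∈ E, a v S ^ 2 + ∑ v ∈ T, a v S ^ 2 = r S := by
    intro S
    rw [hr]
    simp only
    rw [Finset.sum_union hTE, add_comm]
  -- the dual functional
  set M : (R → ℝ) → ℝ := fun y => C1 * (∑ S, (κ * lam S) * tl (r S) (κ * lam S) * |y S|
    + ∑ v ∈ T, (ω * s v) * |fn a v y|) with hM
  have hM0 : ∀ y, 0 ≤ M y := by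
    intro y
    apply mul_nonneg hC1p.le
    apply add_nonneg
    · refine Finset.sum_nonneg fun S _ => ?_
      have h1 := tl_nonneg (r S) (κ * lam S) (hr0 S)
      have h2 := hlam S
      positivity
    · refine Finset.sum_nonneg fun v _ => ?_
      have := hs0 v
      positivity
  obtain ⟨x, hx, hxy⟩ := hbits V (R → ℝ) (fun u y => fn a u y) M β E hβ0 hM0 (by
    intro E' hE'
    have hTE' : Disjoint T E' := Finset.disjoint_of_subset_right hE' hTE
    obtain ⟨ξ, hξ, hξy⟩ := hsg V R a (fun S => κ * lam S) (fun v => ω * s v) T E' hTE'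
      (fun S => mul_pos (by linarith) (hlam S)) (fun v => mul_nonneg hω0 (hs0 v))
      (fun v => by
        have h1 := hs0 v
        have h2 := hs1 v
        calc ω * s v ≤ 1 * 1 := mul_le_mul hω1 h2 h1 zero_le_one
          _ = 1 := one_mul 1)
      (by
        intro u hu y
        have h1 := hD2 u (hE' hu) y
        refine h1.trans (le_of_eq ?_)
        rw [mul_add, Finset.mul_sum, Finset.mul_sum, Finset.mul_sum, Finset.mul_sum]
        congr 1
        · refine Finset.sum_congr rfl fun S _ => ?_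
          have : (κ * lam S * y S) ^ 2 = κ ^ 2 * (lam S * y S) ^ 2 := by ring
          rw [this, hκsq]
          field_simp
        · refine Finset.sum_congr rfl fun v _ => ?_
          have : (ω * s v * fn a v y) ^ 2 = ω ^ 2 * (s v * fn a v y) ^ 2 := by ring
          rw [this, hωsq]
          field_simp)
    refine ⟨ξ, hξ, fun y => (hξy y).trans ?_⟩
    have h2 : ∑ S, κ * lam S * tl (∑ v ∈ T ∪ E', a v S ^ 2) (κ * lam S) * |y S|
        ≤ ∑ S, (κ * lam S) * tl (r S) (κ * lam S) * |y S| := by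
      refine Finset.sum_le_sum fun S _ => ?_
      have h3 : ∑ v ∈ T ∪ E', a v S ^ 2 ≤ r S :=
        Finset.sum_le_sum_of_subset_of_nonneg (Finset.union_subset_union_right hE')
          fun v _ _ => sq_nonneg _
      have h4 : 0 < κ * lam S := mul_pos (by linarith) (hlam S)
      have h5 := tl_mono (Finset.sum_nonneg fun v _ => sq_nonneg _) h3 h4 (le_refl (κ * lam S))
      exact mul_le_mul_of_nonneg_right (mul_le_mul_of_nonneg_left h5 h4.le) (abs_nonneg _)
    have h6 : C1 * (∑ S, κ * lam S * tl (∑ v ∈ T ∪ E', a v S ^ 2) (κ * lam S) * |y S|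
        + ∑ v ∈ T, ω * s v * |fn a v y|) ≤ M y := by
      simp only [hM]
      exact mul_le_mul_of_nonneg_left (add_le_add h2 le_rfl) hC1p.le
    linarith) z hz
  -- certificate
  set ρ : R → ℝ := fun S => (4 * β * K1 + 2 * C1 * κ) * (lam S * tl (r S) (lam S)) with hρ
  have hρ0 : ∀ S, 0 ≤ ρ S := by
    intro S
    have h1 := tl_nonneg (r S) (lam S) (hr0 S)
    have h2 := hlam S
    simp only [hρ]
    positivity
  obtain ⟨ζ, hζ1, hζ2⟩ := Pool.Agent.Helper92.NF.cert_exists
    (fun (S : R) (v : V) => if v ∈ T then a v S else 0) (fun S => ∑ u ∈ E, (x u - z u) * a u S)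
    (fun v => s v / 4) ρ (fun v => by have := hs0 v; positivity) hρ0 (by
      intro y
      have e1 : ∑ S, (∑ u ∈ E, (x u - z u) * a u S) * y S = ∑ u ∈ E, (x u - z u) * fn a u y := by
        simp only [fn, Finset.sum_mul, Finset.mul_sum]
        rw [Finset.sum_comm]
        refine Finset.sum_congr rfl fun u _ => Finset.sum_congr rfl fun S _ => by ring
      have e2 : ∑ v, s v / 4 * |∑ S, (if v ∈ T then a v S else 0) * y S|
          = ∑ v ∈ T, s v / 4 * |fn a v y| := by
        rw [← Finset.sum_subset (Finset.subset_univ T)]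
        · refine Finset.sum_congr rfl fun v hv => ?_
          simp only [hv, if_true, fn]
        · intro v _ hv
          simp [hv]
      rw [e1, e2]
      refine (hxy y).trans ?_
      -- l1 domination
      have h1 := hL y
      have h2 : ∑ u ∈ E, |fn a u y| ≤ 8 / c0 * ∑ v ∈ T, s v * |fn a v y|
          + K1 * ∑ S, lam S * tl (r S) (lam S) * |y S| := by
        have h3 : ∑ S, lam S * (min 1 ((∑ v ∈ E, a v S ^ 2 + ∑ v ∈ T, a v S ^ 2) / lam S ^ 2))
            ^ (1 / 5 : ℝ) * |y S| ≤ ∑ S, lam S * tl (r S) (lam S) * |y S| := by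
          refine Finset.sum_le_sum fun S _ => ?_
          rw [hrET S]
          exact mul_le_mul_of_nonneg_right
            (mul_le_mul_of_nonneg_left (pow_le_tl _ _ (hr0 S)) (hlam S).le) (abs_nonneg _)
        have h4 : α * ∑ u ∈ E, |fn a u y| ≤ 4 * b * ∑ v ∈ T, s v * |fn a v y|
            + C2 * (α + 2 + b) * ∑ S, lam S * tl (r S) (lam S) * |y S| :=
          h1.trans (add_le_add le_rfl (mul_le_mul_of_nonneg_left h3 (by positivity)))
        have h5 : ∑ u ∈ E, |fn a u y| ≤ (4 * b * ∑ v ∈ T, s v * |fn a v y|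
            + C2 * (α + 2 + b) * ∑ S, lam S * tl (r S) (lam S) * |y S|) / α := by
          rw [le_div_iff₀ hα0, mul_comm]
          exact h4
        refine h5.trans (le_of_eq ?_)
        rw [add_div, hK1]
        have e3 : 4 * b * ∑ v ∈ T, s v * |fn a v y| = α * (8 / c0 * ∑ v ∈ T, s v * |fn a v y|) := by
          rw [hα]; field_simp; ring
        rw [e3]
        field_simp
      have h7 : ∑ S, (κ * lam S) * tl (r S) (κ * lam S) * |y S|
          ≤ κ * ∑ S, lam S * tl (r S) (lam S) * |y S| := by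
        rw [Finset.mul_sum]
        refine Finset.sum_le_sum fun S _ => ?_
        have h8 : tl (r S) (κ * lam S) ≤ tl (r S) (lam S) :=
          tl_mono (hr0 S) le_rfl (hlam S) (by nlinarith [hlam S])
        have h9 : 0 ≤ κ * lam S := mul_nonneg (by linarith) (hlam S).le
        calc κ * lam S * tl (r S) (κ * lam S) * |y S| ≤ κ * lam S * tl (r S) (lam S) * |y S| :=
              mul_le_mul_of_nonneg_right (mul_le_mul_of_nonneg_left h8 h9) (abs_nonneg _)
          _ = κ * (lam S * tl (r S) (lam S) * |y S|) := by ring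
      have h10 : M y ≤ C1 * κ * ∑ S, lam S * tl (r S) (lam S) * |y S|
          + 1 / 16 * ∑ v ∈ T, s v * |fn a v y| := by
        simp only [hM]
        have e4 : ∑ v ∈ T, ω * s v * |fn a v y| = ω * ∑ v ∈ T, s v * |fn a v y| := by
          rw [Finset.mul_sum]
          exact Finset.sum_congr rfl fun v _ => by ring
        rw [e4, mul_add, ← mul_assoc C1 ω, hωC]
        have := mul_le_mul_of_nonneg_left h7 hC1p.le
        linarith
      have e5 : ∑ v ∈ T, s v / 4 * |fn a v y| = 1 / 4 * ∑ v ∈ T, s v * |fn a v y| := by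
        rw [Finset.mul_sum]
        exact Finset.sum_congr rfl fun v _ => by ring
      have e6 : ∑ S, ρ S * |y S| = (4 * β * K1 + 2 * C1 * κ)
          * ∑ S, lam S * tl (r S) (lam S) * |y S| := by
        rw [Finset.mul_sum]
        exact Finset.sum_congr rfl fun S _ => by simp only [hρ]; ring
      rw [e5, e6]
      have h11 : 4 * β * ∑ u ∈ E, |fn a u y| ≤ 4 * β * (8 / c0 * ∑ v ∈ T, s v * |fn a v y|
          + K1 * ∑ S, lam S * tl (r S) (lam S) * |y S|) :=
        mul_le_mul_of_nonneg_left h2 (by positivity)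
      have e7 : 4 * β * (8 / c0 * ∑ v ∈ T, s v * |fn a v y|
          + K1 * ∑ S, lam S * tl (r S) (lam S) * |y S|)
          = 1 / 8 * ∑ v ∈ T, s v * |fn a v y|
            + 4 * β * K1 * ∑ S, lam S * tl (r S) (lam S) * |y S| := by
        rw [hβ]
        field_simp
        ring
      rw [e7] at h11
      linarith)
  refine ⟨x, fun v => -ζ v, hx, fun v => ?_, fun S => ?_⟩
  · rw [abs_neg]; exact hζ1 v
  · have h1 := hζ2 S
    have e1 : ∑ v, (if v ∈ T then a v S else 0) * ζ v = ∑ v ∈ T, ζ v * a v S := by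
      rw [← Finset.sum_subset (Finset.subset_univ T)]
      · refine Finset.sum_congr rfl fun v hv => ?_
        simp only [hv, if_true]; ring
      · intro v _ hv
        simp [hv]
    have e2 : ∑ u ∈ E, (x u - z u) * a u S + ∑ v ∈ T, -ζ v * a v S
        = ∑ u ∈ E, (x u - z u) * a u S - ∑ v, (if v ∈ T then a v S else 0) * ζ v := by
      rw [e1]
      simp only [neg_mul, Finset.sum_neg_distrib]
      ring
    rw [e2]
    exact h1

end Pool.Agent.Helper92.KF
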