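import Pool.Agent.Helper37.KF.Stmts
import Pool.Agent.Helper50.BL.Base

/-!
# Komlos: random rounding of the dual vector
-/

namespace Pool.Agent.Helper92.KF

open Finset
open scoped Classical
open Pool.Agent.Helper50.BL (Ex IsW Ex_prod Ex_add Ex_mul_left Ex_sum Ex_one Ex_const Ex_mono Ex_coord)
open Pool.Agent.Helper37.KF

theorem Ex_two {V α : Type} [Fintype V] [DecidableEq V] [Fintype α] {mu : V → α → ℝ} (h : IsW mu)
    {u v : V} (huv : u ≠ v) (f g : α → ℝ) :
    Ex mu (fun w => f (w u) * g (w v)) = (∑ a, mu u a * f a) * (∑ a, mu v a * g a) := by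
  have h1 := Ex_prod (mu := mu) (fun x a => if x = u then f a else if x = v then g a else 1)
  have h2 : (fun w : V → α => ∏ x, (if x = u then f (w x) else if x = v then g (w x) else 1))
      = fun w => f (w u) * g (w v) := by
    funext w
    rw [← Finset.mul_prod_erase univ _ (Finset.mem_univ u),
      ← Finset.mul_prod_erase (univ.erase u) _ (Finset.mem_erase.2 ⟨huv.symm, Finset.mem_univ v⟩)]
    rw [Finset.prod_eq_one, mul_one]
    · simp [huv.symm]
    · intro x hx
      simp only [Finset.mem_erase, Finset.mem_univ, and_true] at hx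
      simp [hx.1, hx.2]
  rw [h2] at h1
  rw [h1, ← Finset.mul_prod_erase univ _ (Finset.mem_univ u),
    ← Finset.mul_prod_erase (univ.erase u) _ (Finset.mem_erase.2 ⟨huv.symm, Finset.mem_univ v⟩)]
  rw [Finset.prod_eq_one, mul_one]
  · simp [huv.symm]
  · intro x hx
    simp only [Finset.mem_erase, Finset.mem_univ, and_true] at hx
    simp only [hx.1, hx.2, if_false, mul_one]
    exact h.2 x

/-- second moment of a sum of independent centred variables -/
theorem Ex_sqsum {V α : Type} [Fintype V] [DecidableEq V] [Fintype α] {mu : V → α → ℝ} (h : IsW mu)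
    (D : V → α → ℝ) (c : V → ℝ) (hm : ∀ v, ∑ a, mu v a * D v a = 0) :
    Ex mu (fun w => (∑ v, c v * D v (w v)) ^ 2) = ∑ v, c v ^ 2 * ∑ a, mu v a * D v a ^ 2 := by
  have h1 : (fun w : V → α => (∑ v, c v * D v (w v)) ^ 2)
      = fun w => ∑ u, ∑ v, (c u * c v) * (D u (w u) * D v (w v)) := by
    funext w
    rw [sq, Finset.sum_mul_sum]
    refine Finset.sum_congr rfl fun u _ => Finset.sum_congr rfl fun v _ => ?_
    ring
  rw [h1, Ex_sum]
  refine Finset.sum_congr rfl fun u _ => ?_
  rw [Ex_sum, Finset.sum_eq_single u]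
  · rw [Ex_mul_left]
    have h2 : Ex mu (fun w => D u (w u) * D u (w u)) = ∑ a, mu u a * D u a ^ 2 := by
      have := Ex_coord h u (fun a => D u a * D u a)
      rw [this]
      exact Finset.sum_congr rfl fun a _ => by ring
    rw [h2]; ring
  · intro v _ hv
    rw [Ex_mul_left, Ex_two h hv.symm, hm u]
    ring
  · intro hu
    exact absurd (Finset.mem_univ u) hu

theorem st_round (hrat : ST_RAT) : ST_ROUND := by
  intro V R _ _ a α γ lam r s T E A hα hα1 hγ hγ1 hTE hlam hs0 hs1 hr hra hD y hy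
  obtain ⟨-, -, -, -, -, hph⟩ := hrat
  -- rounding probabilities
  set q : R → ℝ := fun S => |y S| * Real.sqrt (r S) with hq
  have hq0 : ∀ S, 0 ≤ q S := fun S => mul_nonneg (abs_nonneg _) (Real.sqrt_nonneg _)
  have hsr : ∀ S ∈ A, 0 < Real.sqrt (r S) := fun S hS => Real.sqrt_pos.2 (hr S hS)
  have hq1 : ∀ S ∈ A, q S ≤ 1 := by
    intro S hS
    have h1 := hy S hS
    rw [le_div_iff₀ (hsr S hS)] at h1
    exact h1
  set mu : R → Bool → ℝ := fun S b => if S ∈ A then (if b then q S else 1 - q S)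
    else (if b then 0 else 1) with hmu
  have hW : IsW mu := by
    constructor
    · intro S b
      simp only [hmu]
      by_cases hS : S ∈ A
      · cases b
        · simp only [hS, if_true, Bool.false_eq_true, if_false]
          linarith [hq1 S hS]
        · simp only [hS, if_true]
          exact hq0 S
      · cases b <;> simp [hS]
    · intro S
      by_cases hS : S ∈ A <;> simp [hmu, hS]
  set X : R → Bool → ℝ := fun S b => if S ∈ A then
    (if b then SignType.sign (y S) / Real.sqrt (r S) else 0) else y S with hX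
  set D : R → Bool → ℝ := fun S b => X S b - y S with hDdef
  have habs : ∀ S, (SignType.sign (y S) : ℝ) * |y S| = y S := fun S => sign_mul_abs (y S)
  have hmean : ∀ S, ∑ b, mu S b * D S b = 0 := by
    intro S
    by_cases hS : S ∈ A
    · have h1 := (hsr S hS).ne'
      simp only [hmu, hDdef, hX, hS, if_true, Fintype.sum_bool, Bool.false_eq_true, if_false, hq]
      have h2 := habs S
      field_simp
      rw [mul_sub, mul_comm |y S| _, h2]
      ring
    · simp [hmu, hDdef, hX, hS]
  have hvar : ∀ S, ∑ b, mu S b * D S b ^ 2 ≤ if S ∈ A then |y S| / Real.sqrt (r S) else 0 := by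
    intro S
    by_cases hS : S ∈ A
    · have h1 := hsr S hS
      simp only [hmu, hDdef, hX, hS, if_true, Fintype.sum_bool, Bool.false_eq_true, if_false]
      have h2 := habs S
      have h3 : (SignType.sign (y S) : ℝ) ^ 2 ≤ 1 := by
        rcases lt_trichotomy (y S) 0 with h | h | h
        · simp [sign_neg h]
        · simp [h]
        · simp [sign_pos h]
      set σ : ℝ := (SignType.sign (y S) : ℝ) with hσ
      set p := q S with hp
      have h4 : p * (σ / Real.sqrt (r S)) = y S := by
        have e0 : p * (σ / Real.sqrt (r S)) = σ * |y S| := by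
          rw [hp, hq]
          field_simp
        rw [e0, h2]
      have h5 : p * (σ / Real.sqrt (r S) - y S) ^ 2 + (1 - p) * (0 - y S) ^ 2
          = p * (σ / Real.sqrt (r S)) ^ 2 - y S ^ 2 := by
        have : p * (σ / Real.sqrt (r S) - y S) ^ 2 + (1 - p) * (0 - y S) ^ 2
          = p * (σ / Real.sqrt (r S)) ^ 2 - 2 * (p * (σ / Real.sqrt (r S))) * y S + y S ^ 2 := by ring
        rw [this, h4]; ring
      rw [h5]
      have h6 : p * (σ / Real.sqrt (r S)) ^ 2 ≤ |y S| / Real.sqrt (r S) := by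
        have e1 : p * (σ / Real.sqrt (r S)) ^ 2 = σ ^ 2 * (|y S| / Real.sqrt (r S)) := by
          rw [hp, hq]; simp only; field_simp
        rw [e1]
        have : 0 ≤ |y S| / Real.sqrt (r S) := by positivity
        nlinarith
      nlinarith [sq_nonneg (y S)]
    · simp [hmu, hDdef, hX, hS]
  -- the random vector
  set Y : (R → Bool) → R → ℝ := fun w S => X S (w S) with hY
  have hfn : ∀ (w : R → Bool) (v : V), fn a v (Y w) = fn a v y + ∑ S, a v S * D S (w S) := by
    intro w v
    unfold fn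
    rw [← Finset.sum_add_distrib]
    refine Finset.sum_congr rfl fun S _ => ?_
    simp only [hY, hDdef]; ring
  set Q : V → ℝ := fun v => ∑ S ∈ A, a v S ^ 2 * (|y S| / Real.sqrt (r S)) with hQ
  have hsec : ∀ v, Ex mu (fun w => (∑ S, a v S * D S (w S)) ^ 2) ≤ Q v := by
    intro v
    rw [Ex_sqsum hW D (fun S => a v S) hmean]
    calc _ ≤ ∑ S, a v S ^ 2 * (if S ∈ A then |y S| / Real.sqrt (r S) else 0) :=
          Finset.sum_le_sum fun S _ => mul_le_mul_of_nonneg_left (hvar S) (sq_nonneg _)
      _ = Q v := by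
          simp only [hQ, mul_ite, mul_zero]
          rw [Finset.sum_ite_mem, Finset.univ_inter]
  have hQ0 : ∀ v, 0 ≤ Q v := fun v => Finset.sum_nonneg fun S _ => by positivity
  -- E side
  have hE : ∀ u, ph (fn a u y) ≤ 2 * Ex mu (fun w => ph (fn a u (Y w))) + 2 * Q u := by
    intro u
    have h1 : Ex mu (fun _ => ph (fn a u y)) ≤ Ex mu (fun w => 2 * ph (fn a u (Y w))
        + 2 * (∑ S, a u S * D S (w S)) ^ 2) := by
      refine Ex_mono hW fun w => ?_
      have h2 := hph (fn a u (Y w)) (-(∑ S, a u S * D S (w S)))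
      rw [hfn w u] at h2 ⊢
      rw [show fn a u y + ∑ S, a u S * D S (w S) + -∑ S, a u S * D S (w S) = fn a u y by ring] at h2
      rw [neg_sq] at h2
      exact h2
    rw [Ex_const hW, Ex_add, Ex_mul_left, Ex_mul_left] at h1
    have h3 := hsec u
    linarith
  -- T side
  have hT : ∀ v, Ex mu (fun w => ph (s v * fn a v (Y w))) ≤ 2 * ph (s v * fn a v y) + 2 * Q v := by
    intro v
    have h1 : Ex mu (fun w => ph (s v * fn a v (Y w))) ≤ Ex mu (fun w => 2 * ph (s v * fn a v y)
        + 2 * (∑ S, a v S * D S (w S)) ^ 2) := by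
      refine Ex_mono hW fun w => ?_
      have h2 := hph (s v * fn a v y) (s v * ∑ S, a v S * D S (w S))
      rw [hfn w v, mul_add]
      refine h2.trans ?_
      have h3 : (s v * ∑ S, a v S * D S (w S)) ^ 2 ≤ (∑ S, a v S * D S (w S)) ^ 2 := by
        rw [mul_pow]
        have h4 : s v ^ 2 ≤ 1 := by
          have := hs0 v
          have := hs1 v
          nlinarith
        nlinarith [sq_nonneg (∑ S, a v S * D S (w S))]
      linarith
    rw [Ex_add, Ex_const hW, Ex_mul_left] at h1
    have h3 := hsec v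
    linarith
  -- row side
  have hRow : ∀ S, Ex mu (fun w => ps (lam S * Y w S)) = if S ∈ A then
      q S * Real.log (1 + lam S ^ 2 / r S) else ps (lam S * y S) := by
    intro S
    have h1 := Ex_coord hW S (fun b => ps (lam S * X S b))
    rw [show (fun w : R → Bool => ps (lam S * Y w S)) = fun w => ps (lam S * X S (w S)) from rfl, h1]
    by_cases hS : S ∈ A
    · simp only [hmu, hX, hS, if_true, Fintype.sum_bool, Bool.false_eq_true, if_false, mul_zero]
      have h2 : ps 0 = 0 := by simp [ps]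
      rw [h2, mul_zero, add_zero]
      by_cases hy0 : y S = 0
      · simp [hq, hy0]
      · have h3 : ((SignType.sign (y S) : ℝ)) ^ 2 = 1 := by
          rcases lt_trichotomy (y S) 0 with h | h | h
          · simp [sign_neg h]
          · exact absurd h hy0
          · simp [sign_pos h]
        unfold ps
        rw [mul_pow, div_pow, h3, Real.sq_sqrt (hr S hS).le]
        ring_nf
    · simp [hmu, hX, hS]
  -- main inequality in expectation
  have hmain : α * ∑ u ∈ E, Ex mu (fun w => ph (fn a u (Y w)))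
      ≤ 2 * ∑ S, Ex mu (fun w => ps (lam S * Y w S))
        + γ * ∑ v ∈ T, Ex mu (fun w => ph (s v * fn a v (Y w))) := by
    have h1 := Ex_mono hW (fun w => hD (Y w))
    rw [Ex_mul_left, Ex_sum, Ex_add, Ex_mul_left, Ex_mul_left, Ex_sum, Ex_sum] at h1
    exact h1
  -- sums
  have hsumQ : ∑ v ∈ T ∪ E, Q v ≤ ∑ S ∈ A, Real.sqrt (r S) * |y S| := by
    simp only [hQ]
    rw [Finset.sum_comm]
    refine Finset.sum_le_sum fun S hS => ?_
    rw [← Finset.sum_mul]
    have h1 := hra S hS
    have h2 := hsr S hS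
    have h3 : 0 ≤ |y S| / Real.sqrt (r S) := by positivity
    calc _ ≤ r S * (|y S| / Real.sqrt (r S)) := mul_le_mul_of_nonneg_right h1 h3
      _ = Real.sqrt (r S) * |y S| := by
          have h4 : r S = Real.sqrt (r S) * Real.sqrt (r S) := (Real.mul_self_sqrt (hr S hS).le).symm
          rw [mul_div_assoc']
          rw [div_eq_iff h2.ne']
          nth_rewrite 1 [h4]
          ring
  have hsplit : ∑ v ∈ T ∪ E, Q v = ∑ v ∈ T, Q v + ∑ v ∈ E, Q v := Finset.sum_union hTE
  have hrows : ∑ S, Ex mu (fun w => ps (lam S * Y w S)) = ∑ S ∈ Aᶜ, ps (lam S * y S)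
      + ∑ S ∈ A, q S * Real.log (1 + lam S ^ 2 / r S) := by
    rw [← Finset.sum_compl_add_sum A]
    congr 1
    · refine Finset.sum_congr rfl fun S hS => ?_
      rw [hRow S, if_neg (Finset.mem_compl.1 hS)]
    · refine Finset.sum_congr rfl fun S hS => ?_
      rw [hRow S, if_pos hS]
  have hE2 : ∑ u ∈ E, ph (fn a u y) ≤ 2 * ∑ u ∈ E, Ex mu (fun w => ph (fn a u (Y w)))
      + 2 * ∑ u ∈ E, Q u := by
    rw [Finset.mul_sum, Finset.mul_sum, ← Finset.sum_add_distrib]
    exact Finset.sum_le_sum fun u _ => hE u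
  have hT2 : ∑ v ∈ T, Ex mu (fun w => ph (s v * fn a v (Y w))) ≤ 2 * ∑ v ∈ T, ph (s v * fn a v y)
      + 2 * ∑ v ∈ T, Q v := by
    rw [Finset.mul_sum, Finset.mul_sum, ← Finset.sum_add_distrib]
    exact Finset.sum_le_sum fun v _ => hT v
  have hQE : 0 ≤ ∑ u ∈ E, Q u := Finset.sum_nonneg fun u _ => hQ0 u
  have hQT : 0 ≤ ∑ u ∈ T, Q u := Finset.sum_nonneg fun u _ => hQ0 u
  have hfin : ∑ S ∈ A, Real.sqrt (r S) * |y S| * (1 + Real.log (1 + lam S ^ 2 / r S))
      = ∑ S ∈ A, Real.sqrt (r S) * |y S| + ∑ S ∈ A, q S * Real.log (1 + lam S ^ 2 / r S) := by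
    rw [← Finset.sum_add_distrib]
    refine Finset.sum_congr rfl fun S _ => ?_
    simp only [hq]; ring
  rw [hfin]
  rw [hrows] at hmain
  have e1 : α / 2 * ∑ u ∈ E, ph (fn a u y) ≤ α * ∑ u ∈ E, Ex mu (fun w => ph (fn a u (Y w)))
      + α * ∑ u ∈ E, Q u := by
    have := mul_le_mul_of_nonneg_left hE2 hα
    linarith
  have e2 : γ * ∑ v ∈ T, Ex mu (fun w => ph (s v * fn a v (Y w))) ≤ 2 * γ * ∑ v ∈ T, ph (s v * fn a v y)
      + 2 * γ * ∑ v ∈ T, Q v := by
    have := mul_le_mul_of_nonneg_left hT2 hγ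
    linarith
  have e3 : α * ∑ u ∈ E, Q u ≤ ∑ u ∈ E, Q u := by nlinarith
  have e4 : 2 * γ * ∑ v ∈ T, Q v ≤ 2 * ∑ v ∈ T, Q v := by nlinarith
  linarith

end Pool.Agent.Helper92.KF
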